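import Pool.Agent.U409.OA.Stm3

set_option autoImplicit false

/-! Project OA, package DLIM: the principal specialisation and its limit. -/

namespace Pool.Agent.U139.OA

open Finset Filter Topology Pool.Agent.U409.OA

/-- geometric sums -/
noncomputable def g (a : ℕ) (q : ℂ) : ℂ := ∑ i ∈ range a, q ^ i

lemma g_mul (a : ℕ) (q : ℂ) : q ^ a - 1 = (q - 1) * g a q := by
  rw [mul_comm]; exact (geom_sum_mul q a).symm

lemma g_one (a : ℕ) : g a 1 = a := by simp [g]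

lemma g_cont (a : ℕ) : Continuous (g a) := by unfold g; fun_prop

lemma ex_le (n j : ℕ) (hj : j < 2 * n + 2) : ex j ≤ 3 * (n + 1) - 1 := by unfold ex; omega

lemma gl_eq (m l : ℕ) (hl : l ≤ 3 * m - 1) (q : ℂ) (i : ℕ) (hq : q ≠ 0)
    (h1 : q ^ (2 * (i + 1)) ≠ 1) :
    gl m l (q ^ (i + 1)) = (q ^ ((i + 1) * (3 * m - 1)) / (q ^ (2 * (i + 1)) - 1)) *
      ((q ^ l) ^ (i + 1) - ((q ^ l)⁻¹) ^ (i + 1)) := by
  obtain ⟨d, hd⟩ := Nat.exists_eq_add_of_le hl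
  unfold gl
  have hx2 : (q ^ (i + 1)) ^ 2 ≠ 1 := by rwa [← pow_mul, mul_comm]
  have e1 : ∑ k ∈ range l, (q ^ (i + 1)) ^ (2 * k) =
      (((q ^ (i + 1)) ^ 2) ^ l - 1) / ((q ^ (i + 1)) ^ 2 - 1) := by
    rw [← geom_sum_eq hx2]
    exact Finset.sum_congr rfl fun k _ => by rw [pow_mul]
  rw [e1, hd]
  have hx : (q ^ (i + 1)) ≠ 0 := pow_ne_zero _ hq
  have e2 : (q ^ l) ^ (i + 1) = (q ^ (i + 1)) ^ l := by rw [← pow_mul, ← pow_mul, mul_comm]
  have e3 : q ^ ((i + 1) * (l + d)) = (q ^ (i + 1)) ^ l * (q ^ (i + 1)) ^ d := by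
    rw [← pow_add, ← pow_mul]
  have e4 : q ^ (2 * (i + 1)) = (q ^ (i + 1)) ^ 2 := by rw [← pow_mul, mul_comm]
  rw [inv_pow, e2, e3, e4, Nat.add_sub_cancel_left]
  generalize q ^ (i + 1) = x at *
  have hxl : x ^ l ≠ 0 := pow_ne_zero _ hx
  have h3 : x ^ 2 - 1 ≠ 0 := sub_ne_zero.mpr hx2
  rw [← pow_mul, mul_comm 2 l, pow_mul]
  field_simp

/-- The continuous form. -/
noncomputable def H (n : ℕ) (q : ℂ) : ℂ :=
  ∑ j : Fin (2 * n + 2), ((-1 : ℂ) ^ (j : ℕ) * ((-1) ^ (3 * (n + 1) - 1 - ex j) * (ex j : ℂ))) *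
    ((∏ i : Fin (2 * n + 1), (q ^ (((i : ℕ) + 1) * (3 * (n + 1) - 1)) *
        (g (2 * ex (j.succAbove i)) q / q ^ (ex (j.succAbove i))) / g (2 * ((i : ℕ) + 1)) q)) *
     ∏ i : Fin (2 * n + 1), ∏ i' ∈ Ioi i,
       ((g (ex (j.succAbove i')) q ^ 2 / q ^ (ex (j.succAbove i')) -
          g (ex (j.succAbove i)) q ^ 2 / q ^ (ex (j.succAbove i))) /
         ((g ((i : ℕ) + 1) q - g ((i' : ℕ) + 1) q) * g (((i : ℕ) + 1) + ((i' : ℕ) + 1)) q)))

lemma gl_neg_one (m l : ℕ) : gl m l (-1) = (-1) ^ (3 * m - 1 - l) * (l : ℂ) := by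
  unfold gl
  congr 1
  have h : ∀ k ∈ range l, (-1 : ℂ) ^ (2 * k) = 1 := fun k _ => by rw [pow_mul]; norm_num
  rw [Finset.sum_congr rfl h]
  simp

lemma X_sub (q : ℂ) (hq : q ≠ 0) (l : ℕ) :
    q ^ l - (q ^ l)⁻¹ = (q - 1) * (g (2 * l) q / q ^ l) := by
  have h := g_mul (2 * l) q
  have hl : q ^ l ≠ 0 := pow_ne_zero _ hq
  rw [← mul_div_assoc, ← h]
  field_simp
  ring

lemma X_add (q : ℂ) (hq : q ≠ 0) (l l' : ℕ) :
    (q ^ l' + (q ^ l')⁻¹) - (q ^ l + (q ^ l)⁻¹) =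
      (q - 1) ^ 2 * (g l' q ^ 2 / q ^ l' - g l q ^ 2 / q ^ l) := by
  have key : ∀ a : ℕ, (q - 1) ^ 2 * (g a q ^ 2 / q ^ a) = q ^ a + (q ^ a)⁻¹ - 2 := by
    intro a
    have h := g_mul a q
    have ha : q ^ a ≠ 0 := pow_ne_zero _ hq
    rw [← mul_div_assoc, ← mul_pow, ← h]
    field_simp
    ring
  rw [mul_sub, key, key]
  ring

lemma D_eq (hCH : S_CHEB) (n : ℕ) (q : ℂ) (hq : q ≠ 0) (hq1 : q ≠ 1)
    (h1 : ∀ i : ℕ, q ^ (2 * (i + 1)) ≠ 1) :
    D (n + 1) (Fin.cons (-1) (fun i : Fin (2 * n + 1) => q ^ ((i : ℕ) + 1)) :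
        Fin (2 * n + 2) → ℂ) /
      ∏ i : Fin (2 * n + 1), ∏ j ∈ Ioi i,
        ((q ^ ((i : ℕ) + 1) - q ^ ((j : ℕ) + 1)) *
          (q ^ ((i : ℕ) + 1) * q ^ ((j : ℕ) + 1) - 1)) = H n q := by
  have hsub : q - 1 ≠ 0 := sub_ne_zero.mpr hq1
  unfold D H
  rw [Matrix.det_succ_row_zero, Finset.sum_div]
  refine Finset.sum_congr rfl fun j _ => ?_
  have hdet : ((Matrix.of fun i j : Fin (2 * n + 1 + 1) => gl (n + 1) (ex j)
      ((Fin.cons (-1) (fun i : Fin (2 * n + 1) => q ^ ((i : ℕ) + 1)) :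
        Fin (2 * n + 2) → ℂ) i)).submatrix Fin.succ j.succAbove).det =
      (∏ i : Fin (2 * n + 1), (q ^ (((i : ℕ) + 1) * (3 * (n + 1) - 1)) /
        (q ^ (2 * ((i : ℕ) + 1)) - 1))) *
      ((∏ k : Fin (2 * n + 1), (q ^ ex (j.succAbove k) - (q ^ ex (j.succAbove k))⁻¹)) *
        ∏ k : Fin (2 * n + 1), ∏ k' ∈ Ioi k,
          ((q ^ ex (j.succAbove k') + (q ^ ex (j.succAbove k'))⁻¹) -
            (q ^ ex (j.succAbove k) + (q ^ ex (j.succAbove k))⁻¹))) := by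
    rw [← hCH (2 * n + 1) (fun k => q ^ ex (j.succAbove k)) (fun k => pow_ne_zero _ hq),
      ← Matrix.det_mul_column]
    congr 1
    ext i k
    simp only [Matrix.submatrix_apply, Matrix.of_apply, Fin.cons_succ]
    exact gl_eq (n + 1) _ (ex_le n _ (j.succAbove k).2) q i hq (h1 i)
  rw [hdet]
  simp only [Matrix.of_apply, Fin.cons_zero, gl_neg_one]
  rw [mul_div_assoc]
  congr 1
  rw [← mul_assoc, mul_div_assoc, ← Finset.prod_mul_distrib, ← Finset.prod_div_distrib]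
  congr 1
  · refine Finset.prod_congr rfl fun i _ => ?_
    rw [X_sub q hq, g_mul (2 * ((i : ℕ) + 1)) q, div_mul_eq_mul_div,
      mul_left_comm, mul_div_mul_left _ _ hsub]
  · refine Finset.prod_congr rfl fun i _ => ?_
    rw [← Finset.prod_div_distrib]
    refine Finset.prod_congr rfl fun i' _ => ?_
    rw [X_add q hq]
    have e1 : q ^ ((i : ℕ) + 1) - q ^ ((i' : ℕ) + 1) =
        (q - 1) * (g ((i : ℕ) + 1) q - g ((i' : ℕ) + 1) q) := by
      rw [mul_sub, ← g_mul, ← g_mul]; ring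
    have e2 : q ^ ((i : ℕ) + 1) * q ^ ((i' : ℕ) + 1) - 1 =
        (q - 1) * g (((i : ℕ) + 1) + ((i' : ℕ) + 1)) q := by
      rw [← g_mul, pow_add q ((i : ℕ) + 1)]
    rw [e1, e2, show (q - 1) * (g ((i : ℕ) + 1) q - g ((i' : ℕ) + 1) q) *
      ((q - 1) * g (((i : ℕ) + 1) + ((i' : ℕ) + 1)) q) = (q - 1) ^ 2 *
        ((g ((i : ℕ) + 1) q - g ((i' : ℕ) + 1) q) * g (((i : ℕ) + 1) + ((i' : ℕ) + 1)) q) by ring,
      mul_div_mul_left _ _ (pow_ne_zero 2 hsub)]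

lemma H_cont (n : ℕ) : ContinuousAt (H n) 1 := by
  unfold H
  refine tendsto_finsetSum _ fun j _ => ?_
  refine Tendsto.mul tendsto_const_nhds ?_
  refine Tendsto.mul ?_ ?_
  · refine tendsto_finsetProd _ fun i _ => ?_
    refine Tendsto.div ?_ (g_cont _).continuousAt ?_
    · refine Tendsto.mul ((continuous_pow _).continuousAt) ?_
      refine Tendsto.div (g_cont _).continuousAt ((continuous_pow _).continuousAt) ?_
      simp
    · rw [g_one]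
      exact_mod_cast (by omega : 2 * ((i : ℕ) + 1) ≠ 0)
  · refine tendsto_finsetProd _ fun i _ => ?_
    refine tendsto_finsetProd _ fun i' hi' => ?_
    have hlt' : i < i' := Finset.mem_Ioi.mp hi'
    have hlt : (i : ℕ) < (i' : ℕ) := hlt'
    refine Tendsto.div ?_ ?_ ?_
    · refine Tendsto.sub ?_ ?_
      · exact Tendsto.div (((g_cont _).pow 2).continuousAt) ((continuous_pow _).continuousAt)
          (by simp)
      · exact Tendsto.div (((g_cont _).pow 2).continuousAt) ((continuous_pow _).continuousAt)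
          (by simp)
    · exact Tendsto.mul (((g_cont _).sub (g_cont _)).continuousAt) (g_cont _).continuousAt
    · rw [g_one, g_one, g_one]
      refine mul_ne_zero ?_ ?_
      · rw [sub_ne_zero]
        exact_mod_cast (by omega : (i : ℕ) + 1 ≠ (i' : ℕ) + 1)
      · exact_mod_cast (by omega : (i : ℕ) + 1 + ((i' : ℕ) + 1) ≠ 0)

lemma fact_prod (r : ℕ) : ((r.factorial : ℕ) : ℂ) = ∏ i : Fin r, (((i : ℕ) : ℂ) + 1) := by
  rw [← Finset.prod_range_add_one_eq_factorial]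
  push_cast
  rw [Finset.prod_range]

lemma H_one (n : ℕ) :
    H n 1 = (((SV n / (((2 * n + 1).factorial : ℚ) * Wv (2 * n + 1)) : ℚ) : ℂ)) := by
  unfold H SV Wv
  push_cast
  rw [fact_prod, Finset.mul_sum, Finset.sum_div]
  refine Finset.sum_congr rfl fun j _ => ?_
  simp only [g_one, one_pow, div_one, one_mul]
  rw [show (∏ j : Fin (2 * n + 2), (ex j : ℂ)) = (ex j : ℂ) *
    ∏ i : Fin (2 * n + 1), (ex (j.succAbove i) : ℂ) from
      Fin.prod_univ_succAbove (fun j : Fin (2 * n + 1 + 1) => (ex j : ℂ)) j]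
  rw [pow_add]
  have e1 : (∏ i : Fin (2 * n + 1), (((2 * ex (j.succAbove i) : ℕ) : ℂ) /
      ((2 * ((i : ℕ) + 1) : ℕ) : ℂ))) =
      (∏ i : Fin (2 * n + 1), (ex (j.succAbove i) : ℂ)) /
        ∏ i : Fin (2 * n + 1), (((i : ℕ) : ℂ) + 1) := by
    rw [← Finset.prod_div_distrib]
    refine Finset.prod_congr rfl fun i _ => ?_
    push_cast
    rw [mul_div_mul_left _ _ (two_ne_zero)]
  have e2 : (∏ i : Fin (2 * n + 1), ∏ i' ∈ Ioi i,
      (((ex (j.succAbove i') : ℂ) ^ 2 - (ex (j.succAbove i) : ℂ) ^ 2) /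
        (((((i : ℕ) + 1 : ℕ) : ℂ) - (((i' : ℕ) + 1 : ℕ) : ℂ)) *
          ((((i : ℕ) + 1) + ((i' : ℕ) + 1) : ℕ) : ℂ)))) =
      (∏ i : Fin (2 * n + 1), ∏ i' ∈ Ioi i,
        ((ex (j.succAbove i') : ℂ) ^ 2 - (ex (j.succAbove i) : ℂ) ^ 2)) /
      ∏ i : Fin (2 * n + 1), ∏ i' ∈ Ioi i,
        ((((i : ℕ) : ℂ) + 1) ^ 2 - (((i' : ℕ) : ℂ) + 1) ^ 2) := by
    rw [← Finset.prod_div_distrib]
    refine Finset.prod_congr rfl fun i _ => ?_
    rw [← Finset.prod_div_distrib]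
    refine Finset.prod_congr rfl fun i' _ => ?_
    congr 1
    push_cast
    ring
  rw [e1, e2]
  have e3 : 3 * (n + 1) - 1 = 3 * n + 2 := by omega
  rw [e3]
  simp only [div_eq_mul_inv, mul_inv]
  ring

theorem t_DLIM (hCH : S_CHEB) : S_DLIM := by
  intro n
  rw [← H_one n]
  have hc : Tendsto (fun q : ℝ => H n (q : ℂ)) (𝓝[>] 1) (𝓝 (H n 1)) := by
    have h1 : Tendsto (fun q : ℝ => (q : ℂ)) (𝓝[>] (1 : ℝ)) (𝓝 ((1 : ℝ) : ℂ)) :=
      (Complex.continuous_ofReal.tendsto 1).mono_left nhdsWithin_le_nhds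
    have h2 : Tendsto (H n) (𝓝 ((1 : ℝ) : ℂ)) (𝓝 (H n 1)) := by
      rw [Complex.ofReal_one]; exact H_cont n
    exact h2.comp h1
  refine hc.congr' ?_
  filter_upwards [self_mem_nhdsWithin] with q hq
  have hq' : (1 : ℝ) < q := hq
  refine (D_eq hCH n (q : ℂ) ?_ ?_ ?_).symm
  · exact_mod_cast (by linarith : q ≠ 0)
  · exact_mod_cast (ne_of_gt hq')
  · intro i h
    have h3 : q ^ (2 * (i + 1)) = 1 := by exact_mod_cast h
    exact absurd h3 (ne_of_gt (one_lt_pow₀ hq' (by omega)))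

end Pool.Agent.U139.OA
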